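import Pool.Agent.Run7.h587.Ad.Ch
import Pool.Agent.Run7.h587.Ad.Zd

/-!
# Conic bundles with a dense set of rational points in the space of the `2`-adic points

`X : w² = A(z) t² + B(z) t + G(z)`, `z = (z₁, …, z_n)`, `n ≥ 1`, where `A`, `B`, `G` are polynomials of
degree at most `4` in each variable: an affine open subset of a conic bundle over `(ℙ¹)ⁿ` with the
discriminant `B² - 4 A G` of multidegree `(8, …, 8)`. So `X` is rationally connected; for `n = 1` it is
a conic bundle surface with `8` degenerate geometric fibres if the discriminant has no multiple roots.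
The question is whether the Brauer-Manin obstruction is the only one to weak approximation for such
varieties. For conic bundle surfaces this is known for at most `5` degenerate fibres, and when all of
them are over rational points of the line, but not for `8` conjugate ones.

`X` is strongly adapted at `2` if the coefficients are `2`-integral, and if for all the points
`(z, t, w)` of `X` over `ℚ₂` the coordinates `z_i` and `t` are `2`-adic integers, `w` and the partial
derivatives of `A t² + B t + G` with respect to the `z_i` are units, and the curves of genus one in the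
directions of the coordinates `z_i` through the point are smooth.

(1) Let `K` be a field of characteristic zero with an embedding `σ` in `ℚ₂`, for example `ℚ`, or a
number field with a place of degree one above `2`, and let `X` be a conic bundle over `K` which is
strongly adapted at `2`. Then `X(ℚ₂)` is compact, and the closure of `X(K)` in it is the set of all the
points for which the coordinates `z_i` are congruent modulo `8` to those of a `K`-point. There is no
condition on `t` and `w`. So `X(K)` is dense in `X(ℚ₂)` if and only if each of the finitely many residue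
classes of `z` modulo `8` which contain a `ℚ₂`-point contains a `K`-point.

(2) All the conic bundles with integral polynomials `A ≡ 3 ∏ (z_i² + z_i + 1)²`,
`B ≡ ∑ (z_i² + z_i) + 2` and `G ≡ A + B` modulo `4`, of degree at most `4` in each variable, are
strongly adapted.

(3) For `1 ≤ n ≤ 5`, for each member of this class and each `M` there is a member of the class which is
congruent to it modulo `2^M`, and for which `X(ℚ)` is dense in `X(ℚ₂)`.

(4) For `1 ≤ n ≤ 5`, these members are Zariski dense among all the conic bundles with `A`, `B`, `G` of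
degree at most `4` in each variable: there is no non-zero polynomial in the `3 · 5ⁿ` coefficients which
vanishes for all of them.

(5) For `n = 1` this is also true for the members for which in addition the discriminant `B² - 4 A G` is
irreducible over `ℚ` of degree `8`, so that the `8` degenerate geometric fibres are conjugate.

(6) An example is the surface
`w² = (3 z⁴ - 6 z³ - 3 z² + 6 z - 1) t² + (4 z⁴ - 3 z² - 3 z - 6) t + 3 z⁴ - 6 z³ + 6 z² + 3 z - 3`.

Idea of the proof. For a fixed `t` the variety `w² = A t² + B t + G` is a double cover of the affine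
space with respect to the variables `z_i`, and is strongly adapted in the sense of `ResiduesModEight`
(for `MP_ed3816_nt`), where it is shown that the closure of its `K`-points consists of the residue
classes of `z` modulo `8` of the `K`-points. Let `P` be a `K`-point and let `S` be a `ℚ₂`-point over a
point `z'` which is congruent to `z(P)` modulo `8`. By the conditions at the points over `ℚ₂`, the value
at `z(P)` of `A t² + B t + G` for `t = t(S)` is a square in `ℚ₂`. So the conic over `z(P)` has a point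
over `ℚ₂` with the coordinate `t(S)`, and since this conic has a `K`-point, it has a `K`-point for which
`t` is near to `t(S)`. For this `t` one moves on the double cover to a point near to `S`. For the class,
one finds that `t` is even at all the `ℚ₂`-points, so that `G(z)` is a square up to a multiple of `8`.
For (3) there are at most `2 · 8^(n-1)` residue classes modulo `8`, and `3 · 5ⁿ` coefficients, and one
chooses integral points in the residue classes one after the other, and changes the polynomials by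
multiples of a polynomial which vanishes at the previous points. For (5) this is done with congruences
modulo powers of `6`, such that the discriminant is an Eisenstein polynomial at `3`. For (6) the two
residue classes contain the points `(z, t, w) = (-1, 0, 3)` and `(4, -2, 3)`.
-/

set_option autoImplicit false

namespace Pool.Agent.Results.MP_83e36b_nt.ConicBundlesAtTwo

open MvPolynomial Pool.Agent.Run7.h587.Ad

/-- The points `(z, t, w)` of the variety `w² = A(z) t² + B(z) t + G(z)`. -/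
def points {K : Type} [Field K] {n : ℕ} (A B G : MvPolynomial (Fin n) K) :
    Set ((Fin n → K) × K × K) :=
  {P | P.2.2 ^ 2 = eval P.1 A * P.2.1 ^ 2 + eval P.1 B * P.2.1 + eval P.1 G}

/-- The closure, in the space of the `ℚ₂`-points, of the image of a set of `K`-points. -/
def Cl {K : Type} [Field K] {n : ℕ} (σ : K →+* ℚ_[2]) (R : Set ((Fin n → K) × K × K)) :
    Set ((Fin n → ℚ_[2]) × ℚ_[2] × ℚ_[2]) :=
  closure {S | ∃ P ∈ R, S = (fun j => σ (P.1 j), σ P.2.1, σ P.2.2)}

/-- The polynomial `q(s) = F(z + s e_i)`. -/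
noncomputable def line {K : Type} [Field K] {n : ℕ} (F : MvPolynomial (Fin n) K) (z : Fin n → K)
    (i : Fin n) : Polynomial K :=
  aeval (fun k => Polynomial.C (z k) + Polynomial.C ((Pi.single i 1 : Fin n → K) k) *
    Polynomial.X) F

/-- The Jacobian of the curve `y² = q(s)`, where `q` is a polynomial of degree at most `4`. The curve
is smooth of genus one if the discriminant of the Jacobian is not zero. -/
noncomputable def jacobian {K : Type} [Field K] (q : Polynomial K) : WeierstrassCurve K :=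
  ⟨0, q.coeff 2, 0, q.coeff 1 * q.coeff 3 - 4 * q.coeff 0 * q.coeff 4,
    q.coeff 1 ^ 2 * q.coeff 4 + q.coeff 0 * q.coeff 3 ^ 2 - 4 * q.coeff 0 * q.coeff 2 * q.coeff 4⟩

/-- The polynomial `A t² + B t + G` in the coordinates of the base, for a fixed `t`. -/
noncomputable def fibre {K : Type} [Field K] {n : ℕ} (A B G : MvPolynomial (Fin n) K) (t : K) :
    MvPolynomial (Fin n) K :=
  A * C (t ^ 2) + B * C t + G

/-- `w² = A t² + B t + G` is strongly adapted: the degrees of `A`, `B` and `G` in each variable are at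
most `4`, their coefficients are integral, and at all the points over `ℚ₂` the coordinates `z_i` and
`t` are integral, `w` and the partial derivatives of `A t² + B t + G` with respect to the `z_i` are
units, and the curves in the directions of the coordinates `z_i` are smooth. -/
def StronglyAdapted {n : ℕ} (A B G : MvPolynomial (Fin n) ℚ_[2]) : Prop :=
  (∀ i, A.degreeOf i ≤ 4 ∧ B.degreeOf i ≤ 4 ∧ G.degreeOf i ≤ 4) ∧
  (∀ m, ‖A.coeff m‖ ≤ 1 ∧ ‖B.coeff m‖ ≤ 1 ∧ ‖G.coeff m‖ ≤ 1) ∧
  ∀ (z : Fin n → ℚ_[2]) (t w : ℚ_[2]), (z, t, w) ∈ points A B G → ‖t‖ ≤ 1 ∧ ‖w‖ = 1 ∧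
    ∀ i, ‖z i‖ ≤ 1 ∧ ‖eval z (pderiv i (fibre A B G t))‖ = 1 ∧
      (jacobian (line (fibre A B G t) z i)).Δ ≠ 0

/-- The polynomials `3 ∏ (z_i² + z_i + 1)² + 4 a`. -/
noncomputable def memberA {n : ℕ} (a : MvPolynomial (Fin n) ℤ) : MvPolynomial (Fin n) ℤ :=
  3 * ∏ i, (X i ^ 2 + X i + 1) ^ 2 + 4 * a

/-- The polynomials `∑ (z_i² + z_i) + 2 + 4 b`. -/
noncomputable def memberB {n : ℕ} (b : MvPolynomial (Fin n) ℤ) : MvPolynomial (Fin n) ℤ :=
  ∑ i, (X i ^ 2 + X i) + 2 + 4 * b

/-- The polynomials `3 ∏ (z_i² + z_i + 1)² + ∑ (z_i² + z_i) + 2 + 4 g`. -/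
noncomputable def memberG {n : ℕ} (g : MvPolynomial (Fin n) ℤ) : MvPolynomial (Fin n) ℤ :=
  3 * ∏ i, (X i ^ 2 + X i + 1) ^ 2 + ∑ i, (X i ^ 2 + X i) + 2 + 4 * g

/-- The polynomial with the coefficients `c`, of degree at most `4` in each variable. -/
noncomputable def poly {n : ℕ} (c : (Fin n → Fin 5) → ℤ) : MvPolynomial (Fin n) ℤ :=
  ∑ e, C (c e) * ∏ i, X i ^ (e i : ℕ)

/-- The set of the rational points is dense in the set of the `2`-adic points. -/
def DenseAtTwo {n : ℕ} (A B G : MvPolynomial (Fin n) ℤ) : Prop :=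
  points (map (Int.castRingHom ℚ_[2]) A) (map (Int.castRingHom ℚ_[2]) B)
      (map (Int.castRingHom ℚ_[2]) G) ⊆
    Cl (algebraMap ℚ ℚ_[2]) (points (map (Int.castRingHom ℚ) A) (map (Int.castRingHom ℚ) B)
      (map (Int.castRingHom ℚ) G))

/-- The same for the member of the class with the parameters `c`. -/
def DenseMember {n : ℕ} (c : Fin 3 × (Fin n → Fin 5) → ℤ) : Prop :=
  DenseAtTwo (memberA (poly fun e => c (2, e))) (memberB (poly fun e => c (1, e)))
    (memberG (poly fun e => c (0, e)))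

/-- The discriminant `B² - 4 A G`, for polynomials in one variable, over `ℚ`. -/
noncomputable def discriminant (A B G : MvPolynomial (Fin 1) ℤ) : Polynomial ℚ :=
  aeval (fun _ => Polynomial.X) (B ^ 2 - 4 * A * G)

/-- The discriminant of the member of the class with the parameters `c` is irreducible over `ℚ` of
degree `8`. -/
def IrreducibleDiscriminant (c : Fin 3 × (Fin 1 → Fin 5) → ℤ) : Prop :=
  Irreducible (discriminant (memberA (poly fun e => c (2, e))) (memberB (poly fun e => c (1, e)))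
    (memberG (poly fun e => c (0, e)))) ∧
  (discriminant (memberA (poly fun e => c (2, e))) (memberB (poly fun e => c (1, e)))
    (memberG (poly fun e => c (0, e)))).natDegree = 8

/-! ### comparison with the helper files -/

section aux

variable {K : Type} [Field K] {n : ℕ}

lemma adB_iff (A B G : MvPolynomial (Fin n) ℚ_[2]) : StronglyAdapted A B G ↔ AdB A B G := by
  unfold StronglyAdapted AdB
  refine and_congr Iff.rfl (and_congr Iff.rfl ?_)
  have h : ∀ (z : Fin n → ℚ_[2]) (t w : ℚ_[2]), (z, t, w) ∈ points A B G ↔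
      w ^ 2 = eval z (slice A B G t) := by
    intro z t w
    rw [slice_eval]
    exact Iff.rfl
  simp only [h]
  have h2 : ∀ (z : Fin n → ℚ_[2]) (t : ℚ_[2]) (i : Fin n),
      (jacobian (line (fibre A B G t) z i)).Δ ≠ 0 ↔
        Pool.Agent.Y718.X.Db (lr (slice A B G t) z i) ≠ 0 :=
    fun z t i => jac_db _
  simp only [h2]
  exact Iff.rfl

lemma mem_cl {σ : K →+* ℚ_[2]} {R : Set ((Fin n → K) × K × K)} {z : Fin n → ℚ_[2]} {t w : ℚ_[2]}
    (h : ∀ η : ℝ, 0 < η → ∃ (x : Fin n → K) (t₁ w₁ : K), (x, t₁, w₁) ∈ R ∧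
      (∀ i, ‖σ (x i) - z i‖ < η) ∧ ‖σ t₁ - t‖ < η ∧ ‖σ w₁ - w‖ < η) :
    (z, t, w) ∈ Cl σ R := by
  refine Metric.mem_closure_iff.2 fun η hη => ?_
  obtain ⟨x, t₁, w₁, h1, h2, h3, h4⟩ := h η hη
  refine ⟨_, ⟨(x, t₁, w₁), h1, rfl⟩, ?_⟩
  rw [Prod.dist_eq, Prod.dist_eq]
  refine max_lt ((dist_pi_lt_iff hη).2 fun i => ?_) (max_lt ?_ ?_)
  · rw [dist_comm, dist_eq_norm]
    exact h2 i
  · rw [dist_comm, dist_eq_norm]
    exact h3
  · rw [dist_comm, dist_eq_norm]
    exact h4

lemma of_cl {σ : K →+* ℚ_[2]} {R : Set ((Fin n → K) × K × K)}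
    {S : (Fin n → ℚ_[2]) × ℚ_[2] × ℚ_[2]} (h : S ∈ Cl σ R) {η : ℝ} (hη : 0 < η) :
    ∃ P ∈ R, ∀ i, ‖S.1 i - σ (P.1 i)‖ < η := by
  obtain ⟨_, ⟨P, hP, rfl⟩, h2⟩ := Metric.mem_closure_iff.1 h η hη
  refine ⟨P, hP, fun i => ?_⟩
  rw [Prod.dist_eq] at h2
  rw [← dist_eq_norm]
  exact (dist_pi_lt_iff hη).1 ((le_max_left _ _).trans_lt h2) i

lemma closed_points (A B G : MvPolynomial (Fin n) ℚ_[2]) : IsClosed (points A B G) := by
  refine isClosed_eq (by fun_prop) ?_
  have h : ∀ F : MvPolynomial (Fin n) ℚ_[2],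
      Continuous fun P : (Fin n → ℚ_[2]) × ℚ_[2] × ℚ_[2] => eval P.1 F := fun F =>
    (MvPolynomial.continuous_eval F).comp continuous_fst
  have := h A
  have := h B
  have := h G
  fun_prop

lemma image_points (σ : K →+* ℚ_[2]) {A B G : MvPolynomial (Fin n) K} {P : (Fin n → K) × K × K}
    (hP : P ∈ points A B G) :
    (fun j => σ (P.1 j), σ P.2.1, σ P.2.2) ∈ points (map σ A) (map σ B) (map σ G) := by
  have hev : ∀ (H : MvPolynomial (Fin n) K), eval (fun i => σ (P.1 i)) (map σ H) =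
      σ (eval P.1 H) := fun H => (map_eval σ P.1 H).symm
  have hP' : P.2.2 ^ 2 = eval P.1 A * P.2.1 ^ 2 + eval P.1 B * P.2.1 + eval P.1 G := hP
  change (σ P.2.2) ^ 2 = eval (fun i => σ (P.1 i)) (map σ A) * (σ P.2.1) ^ 2 +
    eval (fun i => σ (P.1 i)) (map σ B) * σ P.2.1 + eval (fun i => σ (P.1 i)) (map σ G)
  rw [hev, hev, hev, ← map_pow, hP']
  simp only [map_add, map_mul, map_pow]

lemma disc_eq (A B G : MvPolynomial (Fin 1) ℤ) :
    discriminant A B G = (toX (B ^ 2 - 4 * A * G)).map (Int.castRingHom ℚ) := by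
  have h : (Polynomial.mapRingHom (Int.castRingHom ℚ)).comp (toX : _ →ₐ[ℤ] _).toRingHom =
      (aeval (fun _ => Polynomial.X) : MvPolynomial (Fin 1) ℤ →ₐ[ℤ] Polynomial ℚ).toRingHom := by
    apply MvPolynomial.ringHom_ext
    · intro r
      simp
    · intro i
      simp [toX]
  exact (DFunLike.congr_fun h (B ^ 2 - 4 * A * G)).symm

lemma ex_A : (3 * X 0 ^ 4 - 6 * X 0 ^ 3 - 3 * X 0 ^ 2 + 6 * X 0 - 1 : MvPolynomial (Fin 1) ℤ) =
    memberA xa := by
  simp [memberA, xa]
  ring

lemma ex_B : (4 * X 0 ^ 4 - 3 * X 0 ^ 2 - 3 * X 0 - 6 : MvPolynomial (Fin 1) ℤ) =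
    memberB xb := by
  simp [memberB, xb]
  ring

lemma ex_G : (3 * X 0 ^ 4 - 6 * X 0 ^ 3 + 6 * X 0 ^ 2 + 3 * X 0 - 3 : MvPolynomial (Fin 1) ℤ) =
    memberG xg := by
  simp [memberG, xg]
  ring

lemma ex_disc : discriminant (3 * X 0 ^ 4 - 6 * X 0 ^ 3 - 3 * X 0 ^ 2 + 6 * X 0 - 1)
    (4 * X 0 ^ 4 - 3 * X 0 ^ 2 - 3 * X 0 - 6)
    (3 * X 0 ^ 4 - 6 * X 0 ^ 3 + 6 * X 0 ^ 2 + 3 * X 0 - 3) = Dz.map (Int.castRingHom ℚ) := by
  simp [discriminant, Dz]
  ring

end aux

/-- **Conic bundles at the place two.** -/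
theorem result :
    -- (1) the closure of the set of the `K`-points
    (∀ (K : Type) [Field K] [CharZero K] (σ : K →+* ℚ_[2]) (n : ℕ)
      (A B G : MvPolynomial (Fin n) K), n ≠ 0 → StronglyAdapted (map σ A) (map σ B) (map σ G) →
      IsCompact (points (map σ A) (map σ B) (map σ G)) ∧
      Cl σ (points A B G) = {S | S ∈ points (map σ A) (map σ B) (map σ G) ∧
        ∃ P ∈ points A B G, ∀ i, ‖S.1 i - σ (P.1 i)‖ ≤ 1 / 8}) ∧
    -- (2) the residue class modulo 4
    (∀ (n : ℕ) (a b g : MvPolynomial (Fin n) ℤ), (∀ i, a.degreeOf i ≤ 4) →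
      (∀ i, b.degreeOf i ≤ 4) → (∀ i, g.degreeOf i ≤ 4) →
      StronglyAdapted (map (Int.castRingHom ℚ_[2]) (memberA a))
        (map (Int.castRingHom ℚ_[2]) (memberB b)) (map (Int.castRingHom ℚ_[2]) (memberG g))) ∧
    -- (3) members with a dense set of rational points near all the members, for `n ≤ 5`
    (∀ (n : ℕ), n ≠ 0 → n ≤ 5 → ∀ (c₀ : Fin 3 × (Fin n → Fin 5) → ℤ) (M : ℕ),
      ∃ c : Fin 3 × (Fin n → Fin 5) → ℤ, (∀ e, (2 : ℤ) ^ M ∣ c e - c₀ e) ∧ DenseMember c) ∧
    -- (4) they are Zariski dense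
    (∀ (n : ℕ), n ≠ 0 → n ≤ 5 → ∀ P : MvPolynomial (Fin 3 × (Fin n → Fin 5)) ℂ, P ≠ 0 →
      ∃ c : Fin 3 × (Fin n → Fin 5) → ℤ, eval (fun e => (c e : ℂ)) P ≠ 0 ∧ DenseMember c) ∧
    -- (5) surfaces with an irreducible discriminant
    (∀ (c₀ : Fin 3 × (Fin 1 → Fin 5) → ℤ) (M : ℕ), ∃ c : Fin 3 × (Fin 1 → Fin 5) → ℤ,
      (∀ e, (2 : ℤ) ^ M ∣ c e - c₀ e) ∧ DenseMember c ∧ IrreducibleDiscriminant c) ∧
    (∀ P : MvPolynomial (Fin 3 × (Fin 1 → Fin 5)) ℂ, P ≠ 0 →
      ∃ c : Fin 3 × (Fin 1 → Fin 5) → ℤ, eval (fun e => (c e : ℂ)) P ≠ 0 ∧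
        DenseMember c ∧ IrreducibleDiscriminant c) ∧
    -- (6) an example
    DenseAtTwo (n := 1) (3 * X 0 ^ 4 - 6 * X 0 ^ 3 - 3 * X 0 ^ 2 + 6 * X 0 - 1)
        (4 * X 0 ^ 4 - 3 * X 0 ^ 2 - 3 * X 0 - 6)
        (3 * X 0 ^ 4 - 6 * X 0 ^ 3 + 6 * X 0 ^ 2 + 3 * X 0 - 3) ∧
      Irreducible (discriminant (3 * X 0 ^ 4 - 6 * X 0 ^ 3 - 3 * X 0 ^ 2 + 6 * X 0 - 1)
        (4 * X 0 ^ 4 - 3 * X 0 ^ 2 - 3 * X 0 - 6)
        (3 * X 0 ^ 4 - 6 * X 0 ^ 3 + 6 * X 0 ^ 2 + 3 * X 0 - 3)) ∧
      (discriminant (3 * X 0 ^ 4 - 6 * X 0 ^ 3 - 3 * X 0 ^ 2 + 6 * X 0 - 1)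
        (4 * X 0 ^ 4 - 3 * X 0 ^ 2 - 3 * X 0 - 6)
        (3 * X 0 ^ 4 - 6 * X 0 ^ 3 + 6 * X 0 ^ 2 + 3 * X 0 - 3)).natDegree = 8 := by
  have hA : ∀ (n : ℕ) (a : MvPolynomial (Fin n) ℤ) (R : Type) [CommRing R],
      map (Int.castRingHom R) (memberA a) = cA R a := by
    intro n a R _
    have : memberA a = cA ℤ a := by
      unfold memberA cA
      rw [map_self]
    rw [this, cA_map]
  have hB : ∀ (n : ℕ) (b : MvPolynomial (Fin n) ℤ) (R : Type) [CommRing R],
      map (Int.castRingHom R) (memberB b) = cB R b := by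
    intro n b R _
    have : memberB b = cB ℤ b := by
      unfold memberB cB
      rw [map_self]
    rw [this, cB_map]
  have hG : ∀ (n : ℕ) (g : MvPolynomial (Fin n) ℤ) (R : Type) [CommRing R],
      map (Int.castRingHom R) (memberG g) = fc R g := fun n g R _ => mem_map R g
  have h3 : ∀ (m : ℕ), m ≤ 4 → ∀ (c₀ : Fin 3 × (Fin (m + 1) → Fin 5) → ℤ) (M : ℕ),
      ∃ c : Fin 3 × (Fin (m + 1) → Fin 5) → ℤ, (∀ e, (2 : ℤ) ^ (M + 1) ∣ c e - c₀ e) ∧
        DenseMember c := by
    intro m hm c₀ M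
    obtain ⟨c, h1, h2⟩ := dense_c (m := m) (by interval_cases m <;> norm_num) c₀ M
    refine ⟨c, h1, ?_⟩
    unfold DenseMember DenseAtTwo
    rw [hA, hB, hG, hA, hB, hG]
    rintro ⟨z, t, w⟩ hS
    refine mem_cl fun η hη => ?_
    obtain ⟨x, t₁, w₁, h3, h4⟩ := h2 z t w (by rw [slice_eval]; exact hS) η hη
    exact ⟨x, t₁, w₁, by rw [slice_eval] at h3; exact h3, h4⟩
  have h3' : ∀ (n : ℕ), n ≠ 0 → n ≤ 5 → ∀ (c₀ : Fin 3 × (Fin n → Fin 5) → ℤ) (M : ℕ),
      ∃ c : Fin 3 × (Fin n → Fin 5) → ℤ, (∀ e, (2 : ℤ) ^ (M + 1) ∣ c e - c₀ e) ∧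
        DenseMember c := by
    intro n hn hn5 c₀ M
    obtain ⟨m, rfl⟩ := Nat.exists_eq_succ_of_ne_zero hn
    exact h3 m (by omega) c₀ M
  have h5 : ∀ (c₀ : Fin 3 × (Fin 1 → Fin 5) → ℤ) (M : ℕ), ∃ c : Fin 3 × (Fin 1 → Fin 5) → ℤ,
      (∀ e, (2 : ℤ) ^ (M + 1) ∣ c e - c₀ e) ∧ DenseMember c ∧ IrreducibleDiscriminant c := by
    intro c₀ M
    obtain ⟨c, h1, h9, h2⟩ := dense_irr c₀ M
    refine ⟨c, h1, ?_, ?_⟩
    · unfold DenseMember DenseAtTwo
      rw [hA, hB, hG, hA, hB, hG]
      rintro ⟨z, t, w⟩ hS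
      refine mem_cl fun η hη => ?_
      obtain ⟨x, t₁, w₁, h3, h4⟩ := h2 z t w (by rw [slice_eval]; exact hS) η hη
      exact ⟨x, t₁, w₁, by rw [slice_eval] at h3; exact h3, h4⟩
    · obtain ⟨E, g1, g2, g3⟩ := disc_irr h9
      have e : discriminant (memberA (poly fun e => c (2, e))) (memberB (poly fun e => c (1, e)))
          (memberG (poly fun e => c (0, e))) = (Polynomial.X ^ 8 + Polynomial.C 3 * E).map
            (Int.castRingHom ℚ) := by
        rw [disc_eq, ← g3]
        have kA : memberA (poly fun e => c (2, e)) = cA ℤ (gp fun e => c (2, e)) := by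
          rw [← hA, map_self]; rfl
        have kB : memberB (poly fun e => c (1, e)) = cB ℤ (gp fun e => c (1, e)) := by
          rw [← hB, map_self]; rfl
        have kG : memberG (poly fun e => c (0, e)) = fc ℤ (gp fun e => c (0, e)) := by
          rw [← hG, map_self]; rfl
        rw [kA, kB, kG]
      have h := eis g1 g2
      rw [← e] at h
      exact h
  refine ⟨fun K _ _ σ n A B G hn hf => ?_, fun n a b g ha hb hg => ?_, fun n hn hn5 c₀ M => ?_,
    fun n hn hn5 P hP => ?_, fun c₀ M => ?_, fun P hP => ?_, ?_, ?_, ?_⟩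
  · have hf' := (adB_iff _ _ _).1 hf
    refine ⟨?_, ?_⟩
    · refine Metric.isCompact_of_isClosed_isBounded (closed_points _ _ _) ?_
      refine (Metric.isBounded_iff_subset_closedBall 0).2 ⟨1, ?_⟩
      rintro ⟨z, t, w⟩ hS
      obtain ⟨g1, g2, g3⟩ := hf.2.2 z t w hS
      rw [Metric.mem_closedBall, dist_zero_right, Prod.norm_def, Prod.norm_def]
      exact max_le ((pi_norm_le_iff_of_nonneg zero_le_one).2 fun i => (g3 i).1) (max_le g1 g2.le)
    · apply Set.Subset.antisymm
      · intro S hS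
        refine ⟨?_, ?_⟩
        · refine closure_minimal ?_ (closed_points _ _ _) hS
          rintro _ ⟨P, hP, rfl⟩
          exact image_points σ hP
        · obtain ⟨P, hP, h⟩ := of_cl hS (show (0 : ℝ) < 1 / 8 by norm_num)
          exact ⟨P, hP, fun i => (h i).le⟩
      · rintro ⟨z, t, w⟩ ⟨h1, P, hP, h2⟩
        refine mem_cl fun η hη => ?_
        obtain ⟨x, t₁, w₁, h3, h4⟩ := level_b hn hf' (z := P.1) (t₀ := P.2.1) (w₀ := P.2.2)
          (by rw [slice_eval]; exact hP) (z' := z) (t := t) (w := w)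
          (by rw [slice_eval]; exact h1) h2 hη
        exact ⟨x, t₁, w₁, by rw [slice_eval] at h3; exact h3, h4⟩
  · rw [hA, hB, hG, adB_iff]
    exact cls_b ha hb hg
  · obtain ⟨c, h1, h2⟩ := h3' n hn hn5 c₀ M
    exact ⟨c, fun e => (pow_dvd_pow 2 (Nat.le_succ M)).trans (h1 e), h2⟩
  · obtain ⟨c₀, M, h1⟩ := zar_dense hP
    obtain ⟨c, h2, h3⟩ := h3' n hn hn5 c₀ M
    exact ⟨c, h1 c h2, h3⟩
  · obtain ⟨c, h1, h2, h3⟩ := h5 c₀ M
    exact ⟨c, fun e => (pow_dvd_pow 2 (Nat.le_succ M)).trans (h1 e), h2, h3⟩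
  · obtain ⟨c₀, M, h1⟩ := zar_dense hP
    obtain ⟨c, h2, h3, h4⟩ := h5 c₀ M
    exact ⟨c, h1 c h2, h3, h4⟩
  · rw [ex_A, ex_B, ex_G]
    unfold DenseAtTwo
    rw [hA, hB, hG, hA, hB, hG]
    rintro ⟨z, t, w⟩ hS
    refine mem_cl fun η hη => ?_
    obtain ⟨x, t₁, w₁, h3, h4⟩ := dense_of xa_deg xb_deg xg_deg ex_pts (z := z) (t := t) (w' := w)
      (by rw [slice_eval]; exact hS) hη
    exact ⟨x, t₁, w₁, by rw [slice_eval] at h3; exact h3, h4⟩
  · rw [ex_disc]
    exact Dz_irr_rat
  · rw [ex_disc]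
    exact Dz_deg_rat

end Pool.Agent.Results.MP_83e36b_nt.ConicBundlesAtTwo
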