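import Pool.Agent.Run7.h443.WE.Final

/-!
# Density of the rational points of 100% of the cubic hypersurfaces

For `n ≥ 3` we consider the smooth cubic hypersurfaces `X : f = 0` in `ℙⁿ`, where `f` is an integral
cubic form with coefficients bounded by `H`, which have points over the real numbers and over all
the `p`-adic fields (cubic surfaces, `n = 3`, are included). They are a positive proportion of all
the integral cubic forms with coefficients bounded by `H`, and there is a function `N` tending to
infinity such that for a proportion of them tending to `1` as `H → ∞` the set of the rational points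
of `X` is dense in the product of `X(ℝ)` and the `X(ℚ_p)` for all the primes `p ≤ N(H)`.
-/

set_option autoImplicit false

namespace Pool.Agent.Results.MP_83e36b_nt.CubicWeakApproximation

/-- The cubic forms in `n + 1` variables whose coefficients are integers of absolute value at most
`H`. -/
def Cubics (n H : ℕ) : Set (MvPolynomial (Fin (n + 1)) ℤ) :=
  {f | f.IsHomogeneous 3 ∧ ∀ m, |f.coeff m| ≤ (H : ℤ)}

/-- The hypersurface `f = 0` in `ℙⁿ` is smooth: at every zero over a field of characteristic zero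
some partial derivative does not vanish. -/
def Smooth {n : ℕ} (f : MvPolynomial (Fin (n + 1)) ℤ) : Prop :=
  ∀ (K : Type) [Field K] [CharZero K] (x : Fin (n + 1) → K), x ≠ 0 →
    MvPolynomial.aeval x f = 0 → ∃ i, MvPolynomial.aeval x (MvPolynomial.pderiv i f) ≠ 0

/-- The hypersurface `f = 0` in `ℙⁿ` has points over the real numbers and over all the `p`-adic
fields. -/
def LocallySoluble {n : ℕ} (f : MvPolynomial (Fin (n + 1)) ℤ) : Prop :=
  (∃ y : Fin (n + 1) → ℝ, y ≠ 0 ∧ MvPolynomial.aeval y f = 0) ∧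
    ∀ (p : ℕ) [Fact p.Prime], ∃ z : Fin (n + 1) → ℚ_[p], z ≠ 0 ∧ MvPolynomial.aeval z f = 0

/-- Density of the rational points of the hypersurface `X : f = 0` in the product of `X(ℝ)` and the
`X(ℚ_p)` for the primes `p ≤ N`: for all nonzero zeros `y` of `f` over the real numbers and `z p`
over the `p`-adic fields (for all `p`), and for every `ε > 0`, there is a nonzero rational zero `x`
of `f` all of whose coordinates differ from those of `y` and of the `z p` with `p ≤ N` by less than
`ε`. -/
def DenseUpTo (N : ℕ) {n : ℕ} (f : MvPolynomial (Fin (n + 1)) ℤ) : Prop :=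
  ∀ (z : ∀ (p : ℕ) [Fact p.Prime], Fin (n + 1) → ℚ_[p]) (y : Fin (n + 1) → ℝ),
    (∀ (p : ℕ) [Fact p.Prime], z p ≠ 0 ∧ MvPolynomial.aeval (z p) f = 0) → y ≠ 0 →
    MvPolynomial.aeval y f = 0 → ∀ ε : ℝ, 0 < ε →
    ∃ x : Fin (n + 1) → ℚ, x ≠ 0 ∧ MvPolynomial.aeval x f = 0 ∧
      (∀ i, |y i - (x i : ℝ)| < ε) ∧
      ∀ (p : ℕ) [Fact p.Prime], p ≤ N → ∀ i, ‖z p i - (x i : ℚ_[p])‖ < ε

open scoped Classical in
theorem ncard_eq (n H : ℕ) (P : MvPolynomial (Fin (n + 1)) ℤ → Prop) :
    ({f | f ∈ Cubics n H ∧ P f} : Set _).ncard =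
      ((Pool.Agent.Y716.Q.formsZ (Fin (n + 1)) 3 (H : ℝ)).filter P).card := by
  rw [← Pool.Agent.Y716.Q.ncard_eq_filter']
  congr 1
  ext f
  simp only [Set.mem_ofPred_eq, Pool.Agent.Y716.Q.isF_iff, Cubics]

theorem ncard_eq' (n H : ℕ) : (Cubics n H).ncard =
      (Pool.Agent.Y716.Q.formsZ (Fin (n + 1)) 3 (H : ℝ)).card := by
  rw [← Set.ncard_coe_finset]
  congr 1
  ext f
  simp only [Finset.mem_coe, Pool.Agent.Y716.Q.mem_formsZ, Pool.Agent.Y716.Q.isF_iff, Cubics,
    Set.mem_ofPred_eq]

/-- Let `n ≥ 3`. The smooth everywhere locally soluble cubic hypersurfaces in `ℙⁿ` are a positive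
proportion of all the cubics, and there is a function `N` tending to infinity such that for 100% of
those with coefficients bounded by `H` the rational points are dense at the real place and all the
primes up to `N(H)`. -/
theorem result (n : ℕ) (hn : 3 ≤ n) :
    (∃ c : ℝ, 0 < c ∧ ∀ᶠ H : ℕ in Filter.atTop, c * ((Cubics n H).ncard : ℝ) ≤
      (({f | f ∈ Cubics n H ∧ Smooth f ∧ LocallySoluble f} : Set _).ncard : ℝ)) ∧
    ∃ N : ℕ → ℕ, Filter.Tendsto N Filter.atTop Filter.atTop ∧
      Filter.Tendsto (fun H : ℕ =>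
        (({f | f ∈ Cubics n H ∧ Smooth f ∧ LocallySoluble f ∧ DenseUpTo (N H) f} :
          Set _).ncard : ℝ) /
        (({f | f ∈ Cubics n H ∧ Smooth f ∧ LocallySoluble f} : Set _).ncard : ℝ))
      Filter.atTop (nhds 1) := by
  classical
  have hι : 4 ≤ Fintype.card (Fin (n + 1)) := by
    rw [Fintype.card_fin]
    omega
  constructor
  · obtain ⟨c, hc, H₀, hH₀⟩ := Pool.Agent.Run7.h443.WE.pos_count (Fin (n + 1)) hι
    refine ⟨c, hc, ?_⟩
    filter_upwards [Filter.eventually_ge_atTop H₀] with H hH
    rw [ncard_eq', ncard_eq]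
    refine (hH₀ H hH).trans ?_
    exact Pool.Agent.Y716.Q.card_filter_le' _ _ _ (fun _ _ h => h)
  · obtain ⟨N, hN, hT⟩ := Pool.Agent.Run7.h443.WE.main_dense (Fin (n + 1)) hι
    refine ⟨N, hN, ?_⟩
    refine hT.congr fun H => ?_
    rw [ncard_eq, ncard_eq]
    congr 1
    · norm_cast
      congr!
    · norm_cast
      congr!

end Pool.Agent.Results.MP_83e36b_nt.CubicWeakApproximation
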