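import Pool.Agent.Y407.C.BadReal
import Pool.Agent.Y232.CS.Bad
import Pool.Agent.Run7.h443.CD.T6

/-!
# Weak approximation for 100% of the smooth Fano cyclic covers of `ℙⁿ`, `n ≥ 2`

Let `n ≥ 2`, `m ≥ 2`, `k ≥ 1` and `m k ≤ n + k`. For a form `F` of degree `m k` in `x_0, …, x_n`
with integral coefficients let `X_F` be the cyclic cover `w ^ m = F(x_0, …, x_n)` of `ℙⁿ` branched
along `F = 0`, a hypersurface of degree `m k` in `ℙ(1, …, 1, k)`. If the branch divisor is smooth
then `X_F` is a smooth Fano variety of dimension `n` (this is the condition `m k ≤ n + k`); it is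
rationally connected. Among the `F` with coefficients bounded by `H` with smooth branch divisor for
which `X_F` has points over the real numbers and over all the `p`-adic fields, a proportion tending
to `1` as `H → ∞` satisfies weak approximation with a precision tending to infinity: all systems of
a real point and of `p`-adic points are approximated at the real place and at all the primes
`p ≤ N` by a rational point with precision `1 / N`, where `N = N(H) → ∞`. Examples are the del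
Pezzo surfaces of degree 2 (`n = 2`, `w ^ 2 = F_4(x, y, z)`), the cyclic cubic surfaces
`w ^ 3 = F_3(x, y, z)`, and the sextic double solids (`n = 3`, `w ^ 2 = F_6(x_0, …, x_3)`).
-/

set_option autoImplicit false

namespace Pool.Agent.Results.MP_83e36b_nt.FanoCyclicCoversWA

open Filter Topology

/-- The forms of degree `D` in `n + 1` variables whose coefficients are integers of absolute value
at most `H`. -/
def Forms (n D H : ℕ) : Set (MvPolynomial (Fin (n + 1)) ℤ) :=
  {F | F.IsHomogeneous D ∧ ∀ a, |F.coeff a| ≤ (H : ℤ)}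

/-- The hypersurface `F = 0` in `ℙⁿ` is smooth: at every zero over a field of characteristic zero
some partial derivative does not vanish. -/
def Smooth {n : ℕ} (F : MvPolynomial (Fin (n + 1)) ℤ) : Prop :=
  ∀ (K : Type) [Field K] [CharZero K] (x : Fin (n + 1) → K), x ≠ 0 →
    MvPolynomial.aeval x F = 0 → ∃ i, MvPolynomial.aeval x (MvPolynomial.pderiv i F) ≠ 0

/-- The cyclic cover `w ^ m = F(x)` of `ℙⁿ` has a point over the field `K`. -/
def HasPoint {n : ℕ} (m : ℕ) (F : MvPolynomial (Fin (n + 1)) ℤ) (K : Type) [Field K] : Prop :=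
  ∃ (x : Fin (n + 1) → K) (w : K), x ≠ 0 ∧ w ^ m = MvPolynomial.aeval x F

/-- The cyclic cover has points over the real numbers and over all the `p`-adic fields. -/
def LocallySoluble {n : ℕ} (m : ℕ) (F : MvPolynomial (Fin (n + 1)) ℤ) : Prop :=
  HasPoint m F ℝ ∧ ∀ (p : ℕ) [Fact p.Prime], HasPoint m F ℚ_[p]

/-- Weak approximation with precision `1 / N` at the real place and at all the primes `p ≤ N`, for
the cyclic cover `w ^ m = F(x)` of `ℙⁿ`, where `F` has degree `m k` and coefficients of size `H`.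
For every family of points `(z_p, v_p)` over the `p`-adic fields and every real point `(y, u)` there
is a rational point `(x, w)` such that for all `p ≤ N` the coordinates `(c x, c ^ k w)` of this
point, for a suitable `c ≠ 0` in `ℚ_p`, satisfy `‖z_p - c x‖ ≤ ‖z_p‖ / N` and
`‖v_p - c ^ k w‖ ≤ ‖z_p‖ ^ k / N`; and, for a suitable real `c ≠ 0`, `‖y - c x‖ ≤ ‖y‖ / N` and
`|u - c ^ k w| ≤ H ^ (1 / m) ‖y‖ ^ k / N` (note that `|u|` is at most of the size of
`H ^ (1 / m) ‖y‖ ^ k`). -/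
def WeakApproximation {n : ℕ} (m k N H : ℕ) (F : MvPolynomial (Fin (n + 1)) ℤ) : Prop :=
  ∀ (z : ∀ (p : ℕ) [Fact p.Prime], Fin (n + 1) → ℚ_[p]) (v : ∀ (p : ℕ) [Fact p.Prime], ℚ_[p])
    (y : Fin (n + 1) → ℝ) (u : ℝ),
    (∀ (p : ℕ) [Fact p.Prime], z p ≠ 0 ∧ v p ^ m = MvPolynomial.aeval (z p) F) → y ≠ 0 →
    u ^ m = MvPolynomial.aeval y F →
    ∃ (x : Fin (n + 1) → ℚ) (w : ℚ), x ≠ 0 ∧ w ^ m = MvPolynomial.aeval x F ∧
      (∀ (p : ℕ) [Fact p.Prime], p ≤ N → ∃ c : ℚ_[p], c ≠ 0 ∧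
        (∀ i, ‖z p i - c * (x i : ℚ_[p])‖ ≤ ‖z p‖ / N) ∧
        ‖v p - c ^ k * (w : ℚ_[p])‖ ≤ ‖z p‖ ^ k / N) ∧
      ∃ c : ℝ, c ≠ 0 ∧ (∀ i, |y i - c * (x i : ℝ)| ≤ ‖y‖ / N) ∧
        |u - c ^ k * (w : ℝ)| ≤ (H : ℝ) ^ (1 / (m : ℝ)) * ‖y‖ ^ k / N

theorem smooth_iff {n : ℕ} (f : Fin 1 → MvPolynomial (Fin (n + 1)) ℤ) :
    Pool.Agent.Y697.C13.SmoothS f ↔ Smooth (f 0) := by
  constructor
  · intro h K _ _ x hx hF
    obtain ⟨i, hi⟩ := h K x (fun _ => 1) hx (by
      intro h0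
      exact one_ne_zero (congrFun h0 0)) (by
      intro j
      rw [Subsingleton.elim j 0]
      exact hF)
    refine ⟨i, ?_⟩
    rwa [Fin.sum_univ_one, one_mul] at hi
  · intro h K _ _ x l hx hl hF
    obtain ⟨i, hi⟩ := h K x hx (hF 0)
    refine ⟨i, ?_⟩
    rw [Fin.sum_univ_one]
    refine mul_ne_zero ?_ hi
    intro h0
    apply hl
    funext j
    rw [Subsingleton.elim j 0]
    exact h0

theorem ncard_iff {n D H : ℕ} {e : Fin 1 → ℕ} (he : ∀ j, e j + 2 = D)
    (P : (Fin 1 → MvPolynomial (Fin (n + 1)) ℤ) → Prop)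
    (P' : MvPolynomial (Fin (n + 1)) ℤ → Prop) (hP : ∀ f, P f ↔ P' (f 0)) :
    ({f : Fin 1 → MvPolynomial (Fin (n + 1)) ℤ | (∀ j, (f j).IsHomogeneous (e j + 2) ∧
      ∀ a, |(f j).coeff a| ≤ (H : ℤ)) ∧ P f} : Set _).ncard =
    ({F | F ∈ Forms n D H ∧ P' F} : Set _).ncard := by
  have hinj : Function.Injective (fun F : MvPolynomial (Fin (n + 1)) ℤ => fun _ : Fin 1 => F) :=
    fun F F' h => congrFun h 0
  rw [← Set.ncard_image_of_injective _ hinj]
  congr 1
  ext f
  simp only [Set.mem_ofPred_eq, Set.mem_image, Forms]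
  constructor
  · rintro ⟨h1, h2⟩
    refine ⟨f 0, ⟨⟨?_, (h1 0).2⟩, (hP f).mp h2⟩, ?_⟩
    · have := (h1 0).1
      rwa [he 0] at this
    · funext j
      rw [Subsingleton.elim j 0]
  · rintro ⟨F, ⟨⟨h1, h2⟩, h3⟩, rfl⟩
    refine ⟨fun j => ⟨?_, h2⟩, (hP _).mpr h3⟩
    rw [he j]
    exact h1

theorem rpow_iff {m : ℕ} (hm : 1 ≤ m) {a b N : ℝ} (ha : 0 ≤ a) (hb : 0 ≤ b) (hN : 0 < N) (H : ℕ) :
    (a * N) ^ m ≤ H * b ^ m ↔ a ≤ (H : ℝ) ^ (1 / (m : ℝ)) * b / N := by
  have h1 : ((H : ℝ) ^ (1 / (m : ℝ))) ^ m = H := by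
    rw [one_div]
    exact Real.rpow_inv_natCast_pow (Nat.cast_nonneg H) (by omega)
  have h2 : (H : ℝ) * b ^ m = ((H : ℝ) ^ (1 / (m : ℝ)) * b) ^ m := by
    rw [mul_pow, h1]
  rw [h2, le_div_iff₀ hN]
  exact pow_le_pow_iff_left₀ (by positivity) (by positivity) (by omega)

theorem wa_iff {n m k N H : ℕ} (hm : 1 ≤ m) (hN : 1 ≤ N) (F : MvPolynomial (Fin (n + 1)) ℤ) :
    Pool.Agent.Run7.h443.CD.WAC m k N (H : ℝ) F ↔ WeakApproximation m k N H F := by
  unfold Pool.Agent.Run7.h443.CD.WAC WeakApproximation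
  refine forall_congr' fun z => forall_congr' fun v => forall_congr' fun y => forall_congr' fun u =>
    forall_congr' fun _ => forall_congr' fun _ => forall_congr' fun _ => exists_congr fun x =>
    exists_congr fun w => and_congr_right fun _ => and_congr_right fun _ =>
    and_congr_right fun _ => exists_congr fun c => and_congr_right fun _ =>
    and_congr_right fun _ => ?_
  rw [mul_comm m k, pow_mul]
  exact rpow_iff hm (abs_nonneg _) (by positivity) (by exact_mod_cast hN) H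

/-- For `n ≥ 2`, `m ≥ 2`, `k ≥ 1` and `m k ≤ n + k`, 100% of the everywhere locally soluble smooth
(Fano) cyclic covers `w ^ m = F(x)` of `ℙⁿ`, `deg F = m k`, ordered by height, satisfy weak
approximation with a precision tending to infinity with the height. -/
theorem result (n m k : ℕ) (hn : 2 ≤ n) (hm : 2 ≤ m) (hk : 1 ≤ k) (h : m * k ≤ n + k) :
    ∃ N : ℕ → ℕ, Tendsto N atTop atTop ∧ Tendsto (fun H : ℕ =>
      (({F | F ∈ Forms n (m * k) H ∧ Smooth F ∧ LocallySoluble m F ∧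
        WeakApproximation m k (N H) H F} : Set _).ncard : ℝ) /
      (({F | F ∈ Forms n (m * k) H ∧ Smooth F ∧ LocallySoluble m F} : Set _).ncard : ℝ))
      atTop (𝓝 1) := by
  have hD2 : 2 ≤ m * k := by nlinarith
  obtain ⟨e, he⟩ : ∃ e : Fin 1 → ℕ, ∀ j, e j + 2 = m * k :=
    ⟨fun _ => m * k - 2, fun j => by dsimp only; omega⟩
  obtain ⟨N, hN, hT⟩ := Pool.Agent.Run7.h443.CD.wa_C (Fin (n + 1)) (m := m) (k := k)
    (by rw [Fintype.card_fin]; omega) hm hk he
    (by rw [Fintype.card_fin]; have := he 0; omega)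
    (Pool.Agent.Y232.CS.bad_int (Fin (n + 1)) e) (Pool.Agent.Y407.C4.bad_real (Fin (n + 1)) e)
  refine ⟨N, hN, ?_⟩
  refine hT.congr' ?_
  filter_upwards [tendsto_atTop.mp hN 1] with H hH
  rw [ncard_iff he (fun f => Pool.Agent.Y697.C13.SmoothS f ∧ Pool.Agent.R465.CV.ElsW m f)
      (fun F => Smooth F ∧ LocallySoluble m F) (fun f => and_congr (smooth_iff f) Iff.rfl),
    ncard_iff he (fun f => Pool.Agent.Y697.C13.SmoothS f ∧ Pool.Agent.R465.CV.ElsW m f ∧
        Pool.Agent.Run7.h443.CD.WAC m k (N H) (H : ℝ) (f 0))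
      (fun F => Smooth F ∧ LocallySoluble m F ∧ WeakApproximation m k (N H) H F)
      (fun f => and_congr (smooth_iff f) (and_congr Iff.rfl (wa_iff (by omega) hH (f 0))))]

end Pool.Agent.Results.MP_83e36b_nt.FanoCyclicCoversWA
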